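import Mathlib

/-!
MP_b6be33_co, Q1 (negative answer): a regular self-complementary graph on nine vertices with a vertex in exactly
`k (k - 1) = 2` triangles which is not fixed by any isomorphism-permutation.
-/

namespace Pool.Agent.Results.MP_b6be33_co.TriangleVertexNotFixed

/-- `P` is an isomorphism-permutation of `G`: distinct `u`, `w` are adjacent if and only if `P u`, `P w` are not. -/
def IsIsoPerm {V : Type} (G : SimpleGraph V) (P : Equiv.Perm V) : Prop :=
  ∀ u w : V, u ≠ w → (G.Adj u w ↔ ¬ G.Adj (P u) (P w))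

/-- The neighbourhoods of the nine vertices. -/
def nb : Fin 9 → Finset (Fin 9) :=
  ![{2, 4, 5, 7}, {3, 4, 5, 6}, {0, 3, 5, 8}, {1, 2, 7, 8}, {0, 1, 6, 7}, {0, 1, 2, 6}, {1, 4, 5, 8}, {0, 3, 4, 8},
    {2, 3, 6, 7}]

/-- The graph. -/
def G9 : SimpleGraph (Fin 9) where
  Adj a b := b ∈ nb a
  symm := ⟨by decide⟩
  loopless := ⟨by decide⟩

instance : DecidableRel G9.Adj := fun a b => inferInstanceAs (Decidable (b ∈ nb a))

theorem nb_card (u : Fin 9) : (nb u).card = 4 := by
  revert u; decide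

theorem tri_card : ((G9.cliqueFinset 3).filter (fun t => (1 : Fin 9) ∈ t)).card = 2 := by
  decide +kernel

theorem no_image : ∀ a b c : Fin 9, a ≠ b → a ≠ c → b ≠ c → a ≠ 1 → b ≠ 1 → c ≠ 1 → ¬ G9.Adj 1 a → ¬ G9.Adj 1 b →
    ¬ G9.Adj 1 c → ¬ G9.Adj c a → ¬ G9.Adj c b → False := by
  decide +kernel

theorem result : ∃ (k : ℕ) (G : SimpleGraph (Fin (4 * k + 1))) (v : Fin (4 * k + 1)),
    Nonempty (G ≃g Gᶜ) ∧ (∀ u, (G.neighborSet u).ncard = 2 * k) ∧
      {t : Finset (Fin (4 * k + 1)) | G.IsNClique 3 t ∧ v ∈ t}.ncard = k * (k - 1) ∧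
      ∀ P : Equiv.Perm (Fin (4 * k + 1)), IsIsoPerm G P → P v ≠ v := by
  refine ⟨2, G9, 1, ?_, ?_, ?_, ?_⟩
  · let p : Equiv.Perm (Fin 9) :=
      ⟨![0, 2, 3, 4, 1, 6, 7, 8, 5], ![0, 4, 1, 2, 3, 8, 5, 6, 7], by decide, by decide⟩
    refine ⟨⟨p, ?_⟩⟩
    intro a b
    rw [SimpleGraph.compl_adj]
    revert a b
    decide
  · intro u
    have h : G9.neighborSet u = ↑(nb u) := by
      ext w
      rfl
    have h2 : (G9.neighborSet u).ncard = (nb u).card := by rw [h, Set.ncard_coe_finset]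
    rw [h2, nb_card]
  · have h : {t : Finset (Fin 9) | G9.IsNClique 3 t ∧ (1 : Fin 9) ∈ t} =
        ↑((G9.cliqueFinset 3).filter (fun t => (1 : Fin 9) ∈ t)) := by
      ext t
      simp [SimpleGraph.mem_cliqueFinset_iff]
    have h2 : {t : Finset (Fin 9) | G9.IsNClique 3 t ∧ (1 : Fin 9) ∈ t}.ncard = 2 := by
      rw [h, Set.ncard_coe_finset, tri_card]
    exact h2
  · intro P hP hfix
    have e1 : G9.Adj 1 4 := by decide
    have e2 : G9.Adj 1 5 := by decide
    have e3 : G9.Adj 1 6 := by decide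
    have e4 : G9.Adj 6 4 := by decide
    have e5 : G9.Adj 6 5 := by decide
    have f1 := (hP (1 : Fin 9) 4 (by decide)).1 e1
    have f2 := (hP (1 : Fin 9) 5 (by decide)).1 e2
    have f3 := (hP (1 : Fin 9) 6 (by decide)).1 e3
    have f4 := (hP (6 : Fin 9) 4 (by decide)).1 e4
    have f5 := (hP (6 : Fin 9) 5 (by decide)).1 e5
    rw [hfix] at f1 f2 f3
    refine no_image (P (4 : Fin 9)) (P (5 : Fin 9)) (P (6 : Fin 9)) ?_ ?_ ?_ ?_ ?_ ?_ f1 f2 f3 f4 f5
    · exact fun h => absurd (P.injective h) (by decide)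
    · exact fun h => absurd (P.injective h) (by decide)
    · exact fun h => absurd (P.injective h) (by decide)
    · exact fun h => absurd (P.injective (h.trans hfix.symm)) (by decide)
    · exact fun h => absurd (P.injective (h.trans hfix.symm)) (by decide)
    · exact fun h => absurd (P.injective (h.trans hfix.symm)) (by decide)

end Pool.Agent.Results.MP_b6be33_co.TriangleVertexNotFixed
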